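import Pool.Agent.H47.Dom.Shift

/-!
# Strongly irreducible subshifts of domino tilings in dimension `d ≥ 3`

For every `d ≥ 3` the space `X_d` of domino tilings of `ℝ^d` contains a nonempty strongly
irreducible subshift.
-/

namespace Pool.Agent.Results.MP_073e7c_an.DominoSI

open Pool.Agent.H47.Dom

/-- The alphabet `{±e_1, …, ±e_d}`: the letter `(i, true)` stands for the vector `e_i` and
`(i, false)` for `-e_i`. It carries the discrete topology. -/
abbrev Letter (d : ℕ) := Fin d × Bool

/-- The vector of `ℤ^d` that a letter stands for. -/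
def vec {d : ℕ} (l : Letter d) : Fin d → ℤ :=
  if l.2 then Pi.single l.1 1 else -Pi.single l.1 1

/-- The letter standing for the opposite vector. -/
def opposite {d : ℕ} (l : Letter d) : Letter d := (l.1, !l.2)

/-- The space `X_d` of domino tilings of `ℝ^d`: the configurations `x` with
`x_{v + x_v} = - x_v` for all `v ∈ ℤ^d`. -/
def dominoTilings (d : ℕ) : Set ((Fin d → ℤ) → Letter d) :=
  {x | ∀ v, x (v + vec (x v)) = opposite (x v)}

/-- Subshifts: closed (product topology) and invariant under all shifts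
`(σ^u x)_v = x_{u + v}`. -/
def IsSubshift {d : ℕ} (X : Set ((Fin d → ℤ) → Letter d)) : Prop :=
  IsClosed X ∧ ∀ u : Fin d → ℤ, ∀ x ∈ X, (fun v => x (u + v)) ∈ X

/-- Strong irreducibility: there is `k` such that for all `x, y ∈ X` and all `A, B ⊆ ℤ^d` at
distance at least `k` (sup norm) some `z ∈ X` agrees with `x` on `A` and with `y` on `B`. -/
def IsStronglyIrreducible {d : ℕ} (X : Set ((Fin d → ℤ) → Letter d)) : Prop :=
  ∃ k : ℕ, ∀ x ∈ X, ∀ y ∈ X, ∀ A B : Set (Fin d → ℤ),
    (∀ a ∈ A, ∀ b ∈ B, (k : ℝ) ≤ dist a b) →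
      ∃ z ∈ X, (∀ a ∈ A, z a = x a) ∧ (∀ b ∈ B, z b = y b)

/-! ## Parameters -/

def par : Par where
  κ := 222025
  a := 8 * (4 * 222025) ^ 3
  τ := 18502 * (8 * (4 * 222025) ^ 3) + 1
  hκ := le_rfl
  ha := le_rfl
  hτ := le_rfl

theorem X0_nonempty (P : Par) : (X0 P).Nonempty := by
  obtain ⟨z, hz, _⟩ := glue P (ι := Empty) (fun i => i.elim) (fun i => i.elim)
    (fun i => i.elim) (fun i => i.elim)
  exact ⟨z, hz⟩

/-! ## Layers -/

section layers

variable {d : ℕ} (hd : 3 ≤ d)

def i0 : Fin d := ⟨0, by omega⟩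
def i1 : Fin d := ⟨1, by omega⟩
def i2 : Fin d := ⟨2, by omega⟩

def emb : Dr → Letter d
  | .U => (i0 hd, true)
  | .D => (i0 hd, false)
  | .E => (i1 hd, true)
  | .W => (i1 hd, false)
  | .N => (i2 hd, true)
  | .S => (i2 hd, false)

/-- the first three coordinates -/
def proj (v : Fin d → ℤ) : P3 := (v (i0 hd), (v (i1 hd), v (i2 hd)))

/-- the layer of a point: the first three coordinates are put to zero -/
def base (v : Fin d → ℤ) : Fin d → ℤ := fun i => if i.val < 3 then 0 else v i

lemma base_base (v : Fin d → ℤ) : base (base v) = base v := by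
  funext i
  unfold base
  split_ifs <;> rfl

lemma base_add {u v w : Fin d → ℤ} (h : base v = base w) : base (u + v) = base (u + w) := by
  funext i
  have := congrFun h i
  unfold base at *
  simp only [Pi.add_apply]
  split_ifs at * <;> simp_all

lemma proj_add (u v : Fin d → ℤ) : proj hd (u + v) = proj hd u + proj hd v := rfl

lemma emb_opp (δ : Dr) : emb hd δ.opp = opposite (emb hd δ) := by
  cases δ <;> rfl

lemma ne01 : i0 hd ≠ i1 hd := by unfold i0 i1; simp
lemma ne02 : i0 hd ≠ i2 hd := by unfold i0 i2; simp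
lemma ne12 : i1 hd ≠ i2 hd := by unfold i1 i2; simp

lemma proj_vec (δ : Dr) : proj hd (vec (emb hd δ)) = (δ.tv, δ.lv) := by
  have h1 := ne01 hd
  have h2 := ne02 hd
  have h3 := ne12 hd
  have h1' := h1.symm
  have h2' := h2.symm
  have h3' := h3.symm
  cases δ <;> simp [proj, vec, emb, Dr.tv, Dr.lv, *]

lemma base_vec (v : Fin d → ℤ) (δ : Dr) : base (v + vec (emb hd δ)) = base v := by
  funext i
  unfold base
  split_ifs with h
  · rfl
  · have h0 : i ≠ i0 hd := by rintro rfl; apply h; simp [i0]
    have h1 : i ≠ i1 hd := by rintro rfl; apply h; simp [i1]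
    have h2 : i ≠ i2 hd := by rintro rfl; apply h; simp [i2]
    cases δ <;> simp [vec, emb, *]

/-- configurations all of whose three-dimensional layers are in `X0` -/
def layered : Set ((Fin d → ℤ) → Letter d) :=
  {x | ∀ b : Fin d → ℤ, ∃ ξ ∈ X0 par, ∀ v, base v = base b → x v = emb hd (ξ (proj hd v))}

lemma layered_nonempty : (layered hd).Nonempty := by
  obtain ⟨ξ, hξ⟩ := X0_nonempty par
  exact ⟨fun v => emb hd (ξ (proj hd v)), fun b => ⟨ξ, hξ, fun v _ => rfl⟩⟩

lemma layered_tilings : layered hd ⊆ dominoTilings d := by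
  intro x hx v
  obtain ⟨ξ, hξ, h⟩ := hx v
  rw [h v rfl, h _ (base_vec hd v _), ← emb_opp, proj_add, proj_vec]
  congr 1
  exact hξ.1 _ _

lemma layered_shift {x : (Fin d → ℤ) → Letter d} (hx : x ∈ layered hd) (u : Fin d → ℤ) :
    (fun v => x (u + v)) ∈ layered hd := by
  intro b
  obtain ⟨ξ, hξ, h⟩ := hx (u + b)
  refine ⟨shx (proj hd u) ξ, X0_shift hξ _, ?_⟩
  intro v hv
  simp only
  rw [h _ (base_add hv), add_comm u v]
  rfl

lemma layered_glue : ∃ k : ℕ, ∀ x ∈ layered hd, ∀ y ∈ layered hd, ∀ A B : Set (Fin d → ℤ),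
    (∀ a ∈ A, ∀ b ∈ B, (k : ℝ) ≤ dist a b) →
      ∃ z ∈ layered hd, (∀ a ∈ A, z a = x a) ∧ (∀ b ∈ B, z b = y b) := by
  have k1 := par.hκ
  have k2 := par.ha'
  have k3 := par.hτ
  refine ⟨(60 * par.τ).toNat + 1, ?_⟩
  intro x hx y hy A B hAB
  choose ξ hξ hξx using hx
  choose η hη hηy using hy
  have hfar : ∀ a ∈ A, ∀ b ∈ B, base a = base b →
      ¬ Bx (60 * par.τ) (proj hd a) (proj hd b) := by
    intro a ha b hb hbase hbx
    have h1 := hAB a ha b hb
    have h2 : dist a b ≤ (((60 * par.τ).toNat : ℕ) : ℝ) := by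
      rw [dist_pi_le_iff (by positivity)]
      intro i
      rw [Int.dist_eq]
      have h3 : |a i - b i| ≤ 60 * par.τ := by
        by_cases hi : i.val < 3
        · have hi' : i = i0 hd ∨ i = i1 hd ∨ i = i2 hd := by
            have : i.val = 0 ∨ i.val = 1 ∨ i.val = 2 := by omega
            rcases this with h | h | h
            · left; exact Fin.ext h
            · right; left; exact Fin.ext h
            · right; right; exact Fin.ext h
          unfold Bx proj at hbx
          simp only at hbx
          rw [abs_le]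
          rcases hi' with rfl | rfl | rfl <;> omega
        · have := congrFun hbase i
          unfold base at this
          rw [if_neg hi, if_neg hi] at this
          rw [this, sub_self, abs_zero]
          omega
      have h4 : (((60 * par.τ).toNat : ℕ) : ℝ) = ((60 * par.τ : ℤ) : ℝ) := by
        have : (((60 * par.τ).toNat : ℕ) : ℤ) = 60 * par.τ := Int.toNat_of_nonneg (by omega)
        exact_mod_cast this
      rw [h4]
      exact_mod_cast h3
    have h5 : (((60 * par.τ).toNat + 1 : ℕ) : ℝ) ≤ (((60 * par.τ).toNat : ℕ) : ℝ) :=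
      h1.trans h2
    push_cast at h5
    linarith
  have hz : ∀ c : Fin d → ℤ, ∃ ζ ∈ X0 par, (∀ a ∈ A, base a = base c →
      ζ (proj hd a) = ξ c (proj hd a)) ∧ (∀ b ∈ B, base b = base c →
      ζ (proj hd b) = η c (proj hd b)) := by
    intro c
    obtain ⟨ζ, hζ, h⟩ := glue par (ι := Bool) (fun i => if i then ξ c else η c)
      (by intro i; cases i; exacts [hη c, hξ c])
      (fun i => if i then {w | ∃ a ∈ A, base a = base c ∧ proj hd a = w} else
        {w | ∃ b ∈ B, base b = base c ∧ proj hd b = w})
      (by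
        intro i j hij v hv w hw
        cases i <;> cases j
        · exact absurd rfl hij
        · simp only [Bool.false_eq_true, if_false, if_true] at hv hw
          obtain ⟨b, hb, hbc, rfl⟩ := hv
          obtain ⟨a, ha, hac, rfl⟩ := hw
          intro hbx
          apply hfar a ha b hb (hac.trans hbc.symm)
          unfold Bx at *
          omega
        · simp only [Bool.false_eq_true, if_false, if_true] at hv hw
          obtain ⟨b, hb, hbc, rfl⟩ := hw
          obtain ⟨a, ha, hac, rfl⟩ := hv
          exact hfar a ha b hb (hac.trans hbc.symm)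
        · exact absurd rfl hij)
    refine ⟨ζ, hζ, ?_, ?_⟩
    · intro a ha hac
      have := h true (proj hd a) (by
        simp only [if_true]; exact ⟨a, ha, hac, rfl⟩)
      simpa using this
    · intro b hb hbc
      have := h false (proj hd b) (by
        simp only [Bool.false_eq_true, if_false]; exact ⟨b, hb, hbc, rfl⟩)
      simpa using this
  choose ζ hζ hζA hζB using hz
  refine ⟨fun v => emb hd (ζ (base v) (proj hd v)), ?_, ?_, ?_⟩
  · intro b
    refine ⟨ζ (base b), hζ _, fun v hv => ?_⟩
    simp only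
    rw [hv]
  · intro a ha
    simp only
    rw [hζA _ a ha (base_base a).symm]
    exact (hξx (base a) a (base_base a).symm).symm
  · intro b hb
    simp only
    rw [hζB _ b hb (base_base b).symm]
    exact (hηy (base b) b (base_base b).symm).symm

end layers

/-! ## Closure -/

lemma isClosed_dominoTilings (d : ℕ) : IsClosed (dominoTilings d) := by
  have h : dominoTilings d = ⋂ v : Fin d → ℤ, ⋃ l : Letter d,
      ({x | x v = l} ∩ {x | x (v + vec l) = opposite l}) := by
    ext x
    simp only [dominoTilings, Set.mem_ofPred_eq, Set.mem_iInter, Set.mem_iUnion,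
      Set.mem_inter_iff]
    constructor
    · intro hx v
      exact ⟨x v, rfl, hx v⟩
    · intro hx v
      obtain ⟨l, h1, h2⟩ := hx v
      rw [h1]
      exact h2
  rw [h]
  refine isClosed_iInter fun v => isClosed_iUnion_of_finite fun l => ?_
  exact (isClosed_singleton.preimage (continuous_apply v)).inter
    (isClosed_singleton.preimage (continuous_apply (v + vec l)))

/-- **Full answer to Q1 (positive).** For every `d ≥ 3` the space `X_d` of domino tilings of
`ℝ^d` contains a nonempty strongly irreducible subshift. -/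
theorem result : ∀ d : ℕ, 3 ≤ d → ∃ X : Set ((Fin d → ℤ) → Letter d),
    X ⊆ dominoTilings d ∧ X.Nonempty ∧ IsSubshift X ∧ IsStronglyIrreducible X := by
  intro d hd
  obtain ⟨k, hk⟩ := layered_glue hd
  refine ⟨closure (layered hd), ?_, ?_, ⟨isClosed_closure, ?_⟩, k, ?_⟩
  · exact closure_minimal (layered_tilings hd) (isClosed_dominoTilings d)
  · exact (layered_nonempty hd).closure
  · intro u x hx
    have hcont : Continuous (fun (x : (Fin d → ℤ) → Letter d) => fun v => x (u + v)) :=
      continuous_pi fun v => continuous_apply _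
    exact map_mem_closure hcont hx (fun y hy => layered_shift hd hy u)
  · intro x hx y hy A B hAB
    let K : Set (((Fin d → ℤ) → Letter d) × ((Fin d → ℤ) → Letter d) ×
        ((Fin d → ℤ) → Letter d)) :=
      {p | p.2.2 ∈ closure (layered hd) ∧ (∀ a ∈ A, p.2.2 a = p.1 a) ∧
        (∀ b ∈ B, p.2.2 b = p.2.1 b)}
    have hK : IsClosed K := by
      have e : K = (fun p => p.2.2) ⁻¹' closure (layered hd) ∩
          ((⋂ a ∈ A, {p | p.2.2 a = p.1 a}) ∩ (⋂ b ∈ B, {p | p.2.2 b = p.2.1 b})) := by
        ext p
        simp only [K, Set.mem_ofPred_eq, Set.mem_inter_iff, Set.mem_preimage, Set.mem_iInter]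
      rw [e]
      refine (isClosed_closure.preimage (continuous_snd.comp continuous_snd)).inter
        ((isClosed_biInter fun a _ => ?_).inter (isClosed_biInter fun b _ => ?_))
      · exact isClosed_eq ((continuous_apply a).comp (continuous_snd.comp continuous_snd))
          ((continuous_apply a).comp continuous_fst)
      · exact isClosed_eq ((continuous_apply b).comp (continuous_snd.comp continuous_snd))
          ((continuous_apply b).comp (continuous_fst.comp continuous_snd))
    have hS : IsClosed ((fun p : ((Fin d → ℤ) → Letter d) × ((Fin d → ℤ) → Letter d) ×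
        ((Fin d → ℤ) → Letter d) => (p.1, p.2.1)) '' K) :=
      (hK.isCompact.image (by fun_prop)).isClosed
    have hsub : layered hd ×ˢ layered hd ⊆ (fun p : ((Fin d → ℤ) → Letter d) ×
        ((Fin d → ℤ) → Letter d) × ((Fin d → ℤ) → Letter d) => (p.1, p.2.1)) '' K := by
      rintro ⟨x', y'⟩ ⟨hx', hy'⟩
      obtain ⟨z, hz, hzA, hzB⟩ := hk x' hx' y' hy' A B hAB
      exact ⟨(x', y', z), ⟨subset_closure hz, hzA, hzB⟩, rfl⟩
    have hxy : (x, y) ∈ closure (layered hd ×ˢ layered hd) := by
      rw [closure_prod_eq]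
      exact ⟨hx, hy⟩
    obtain ⟨⟨x', y', z⟩, ⟨hz, hzA, hzB⟩, heq⟩ := closure_minimal hsub hS hxy
    simp only [Prod.mk.injEq] at heq
    obtain ⟨rfl, rfl⟩ := heq
    exact ⟨z, hz, hzA, hzB⟩

end Pool.Agent.Results.MP_073e7c_an.DominoSI
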